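import Pool.Agent.Helper69.TPF.St1

/-!
# Project TPF, module INV: homogeneous elements are invertible in the corner of a primitive idempotent
-/

set_option autoImplicit false

open scoped commutatorElement ComplexConjugate

namespace Pool.Agent.Helper6.TPF

open Pool.Agent.Helper69.TPF

theorem smul_inj {E : Type} [Group E] {z : AA E} (hz : z ≠ 0) {c d : ℂ} (h : c • z = d • z) : c = d := by
  by_contra hcd
  have h1 : (c - d) • z = 0 := by rw [sub_smul, h, sub_self]
  rcases smul_eq_zero.1 h1 with h2 | h2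
  · exact hcd (sub_eq_zero.1 h2)
  · exact hz h2

theorem cINV (adj : St_ADJ) (grd : St_GRD) : St_INV := by
  intro E G _ _ _ π e he
  obtain ⟨amul, aadj, -, asmul, -, atau, aker, -, acc⟩ := adj E G π
  obtain ⟨-, -, -, gsmul, -, gmul, gcomm, -⟩ := grd E G π
  obtain ⟨he1, hee, he0, hprim⟩ := he
  set A : AA E → AA E := Pool.Agent.Helper69.TPF.adj with hA
  have hAe1 : CC π 1 (A e) := by
    have h := acc 1 e he1
    rwa [inv_one] at h
  obtain ⟨c, hc⟩ := hprim _ hAe1
  have hc0 : c ≠ 0 := by
    intro h
    rw [h, zero_smul] at hc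
    exact he0 (aker e hc)
  have hcomm : e * A e = A e * e := gcomm 1 e (A e) he1 hAe1
  have hAeAe : A e * A e = A e := by rw [← amul, hee]
  have hc1 : c = 1 := by
    have h1 : (e * A e) * (e * A e) = e * A e := by
      calc (e * A e) * (e * A e) = e * (A e * e) * A e := by simp only [mul_assoc]
        _ = e * (e * A e) * A e := by rw [hcomm]
        _ = (e * e) * (A e * A e) := by simp only [mul_assoc]
        _ = e * A e := by rw [hee, hAeAe]
    rw [hc, smul_mul_assoc, mul_smul_comm, hee, smul_smul] at h1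
    have h2 := smul_inj he0 h1
    exact mul_left_cancel₀ hc0 (by rw [h2, mul_one])
  have hAe : A e = e := by
    have h1 : e * A e = e := by rw [hc, hc1, one_smul]
    have h2 : A (e * A e) = e * A e := by rw [amul, aadj]
    rw [h1] at h2
    exact h2
  refine ⟨hAe, ?_, fun h w hw hew => ?_⟩
  · intro ht
    have h1 : e * A e = e := by rw [hAe, hee]
    have h2 := atau e
    rw [h1, ht] at h2
    have h3 : (∑ x : E, ‖e.coeff x‖ ^ 2 : ℝ) = 0 := by exact_mod_cast h2.symm
    have h4 : ∀ x : E, ‖e.coeff x‖ ^ 2 = 0 := fun x =>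
      (Finset.sum_eq_zero_iff_of_nonneg (fun x _ => by positivity)).1 h3 x (Finset.mem_univ x)
    have h5 : e * A e = 0 := by
      have h6 : e = 0 := by
        refine MonoidAlgebra.ext (Finsupp.ext fun x => ?_)
        have h7 : ‖e.coeff x‖ = 0 := by
          have := h4 x
          exact pow_eq_zero_iff (two_ne_zero) |>.1 this
        exact norm_eq_zero.1 h7
      exact absurd h6 he0
    exact he0 (aker e h5)
  · set u : AA E := e * w with hu
    have hcw : e * w = w * e := gcomm h e w he1 hw
    have heu : e * u = u := by rw [hu, ← mul_assoc, hee]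
    have hue : u * e = u := by rw [hu, mul_assoc, ← hcw, ← mul_assoc, hee]
    have hucc : CC π h u := by
      have h1 := gmul 1 h e w he1 hw
      rwa [one_mul] at h1
    have hAu : CC π h⁻¹ (A u) := acc h u hucc
    have heAu : e * A u = A u := by
      conv_lhs => rw [← hAe]
      rw [← amul, hue]
    have hAue : A u * e = A u := by
      conv_lhs => rw [← hAe]
      rw [← amul, heu]
    have h1 : CC π 1 (u * A u) := by
      have h2 := gmul h h⁻¹ u (A u) hucc hAu
      rwa [mul_inv_cancel] at h2
    have h2 : CC π 1 (A u * u) := by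
      have h3 := gmul h⁻¹ h (A u) u hAu hucc
      rwa [inv_mul_cancel] at h3
    obtain ⟨a, ha⟩ := hprim _ h1
    obtain ⟨b, hb⟩ := hprim _ h2
    rw [← mul_assoc, heu] at ha
    rw [← mul_assoc, heAu] at hb
    have ha0 : a ≠ 0 := by
      intro h3
      rw [h3, zero_smul] at ha
      exact hew (aker u ha)
    have hab : b = a := by
      have h3 : u * (A u * u) = (u * A u) * u := (mul_assoc _ _ _).symm
      rw [ha, hb, mul_smul_comm, smul_mul_assoc, hue, heu] at h3
      exact smul_inj hew h3
    have hE : EInv e u (a⁻¹ • A u) := by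
      refine ⟨heu, hue, ?_, ?_, ?_, ?_⟩
      · rw [mul_smul_comm, heAu]
      · rw [smul_mul_assoc, hAue]
      · rw [mul_smul_comm, ha, smul_smul, inv_mul_cancel₀ ha0, one_smul]
      · rw [smul_mul_assoc, hb, hab, smul_smul, inv_mul_cancel₀ ha0, one_smul]
    have hcc : CC π h⁻¹ (a⁻¹ • A u) := gsmul h⁻¹ a⁻¹ (A u) hAu
    refine ⟨⟨_, hcc, hE⟩, fun z hz => ?_⟩
    have h3 : CC π 1 (z * (a⁻¹ • A u)) := by
      have h4 := gmul h h⁻¹ z (a⁻¹ • A u) hz hcc
      rwa [mul_inv_cancel] at h4
    obtain ⟨d, hd⟩ := hprim _ h3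
    refine ⟨d, ?_⟩
    have hez : e * z = z * e := gcomm h e z he1 hz
    calc e * z = e * e * z := by rw [hee]
      _ = e * z * e := by rw [mul_assoc, hez, ← mul_assoc, hez, mul_assoc, hee]
      _ = e * z * ((a⁻¹ • A u) * u) := by rw [hE.2.2.2.2.2]
      _ = e * (z * (a⁻¹ • A u)) * u := by simp only [mul_assoc]
      _ = d • e * u := by rw [hd]
      _ = d • u := by rw [smul_mul_assoc, heu]

end Pool.Agent.Helper6.TPF
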